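import Pool.Agent.Q99.KN.Stm1
import Pool.Agent.Q99.FAL.Stm3

/-!
# Twist regions without circles, part C: analysis of two-bridge links

`v = exp (π i / N)`.  Positions are scaled: `ξ = y / N`, `ζ = z / N`.

* `bb x = log (2 sin π x)` is analytic on the strip `St = {0 < Re x < 1}` (there
  `Re (sin π x) = sin (π Re x) cosh (π Im x) > 0`), `LC` is its primitive with `LC (1/2) = 0`.
* `Gm N` is the quantum dilogarithm; `Gm N (x + 1/N) = 2 sin (π (x + 1/(2N))) Gm N x` exactly.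
* `Wy N y z = [n1, y] [n2, y]` (`Stm1.lean`), `Wk N z x 0 y = Wy N x z * Wy N y z`;
  `Wy N y (N ζ) = WW N (y / N) ζ` exactly, `WW N ξ ζ ~ exp (N HH ξ ζ) / (2 N sin π ξ)`.
-/

set_option autoImplicit false

namespace Pool.Agent.Q99.KN

open Finset Filter Topology MeasureTheory
open Pool.Agent.W719.BS (D LL)
open Pool.Agent.Q99.FAL (bq S_T1)

/-- `[n1, y] [n2, y]` -/
noncomputable def Wy (N y : ℕ) (z : ℂ) : ℂ := bc N ((N - 1 + z) / 2) y * bc N ((N - 1 - z) / 2) y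

/-- `log (2 sin π x)` -/
noncomputable def bb (x : ℂ) : ℂ := Complex.log (2 * Complex.sin (Real.pi * x))

/-- the primitive of `bb` on the strip which vanishes at `1/2` -/
noncomputable def LC (x : ℂ) : ℂ := ∫ t in (0:ℝ)..1, (x - 1 / 2) * bb (1 / 2 + t * (x - 1 / 2))

/-- the strip -/
def St : Set ℂ := {x | 0 < x.re ∧ x.re < 1}

/-- the quantum dilogarithm at `exp (π i / N)` -/
noncomputable def Gm (N : ℕ) (x : ℂ) : ℂ := Complex.exp (N * LC x + Complex.I *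
  ∫ t in Set.Ioi (0:ℝ), (bb (x + Complex.I * t / N) - bb (x - Complex.I * t / N)) /
    (Real.exp (2 * Real.pi * t) + 1 : ℝ))

/-- the analytic continuation of `Wy` -/
noncomputable def WW (N : ℕ) (ξ ζ : ℂ) : ℂ :=
  (N * Gm N (1 / 2 - ζ / 2 - ξ) * Gm N (1 / 2 + ζ / 2 - ξ) * Gm N (ξ + 1 / (2 * N)) ^ 2)⁻¹

/-- the potential -/
noncomputable def HH (ξ ζ : ℂ) : ℂ := -(2 * LC ξ + LC (1 / 2 - ζ / 2 - ξ) + LC (1 / 2 + ζ / 2 - ξ))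

/-- its derivative in `ξ` -/
noncomputable def h1 (ξ ζ : ℂ) : ℂ := bb (1 / 2 - ζ / 2 - ξ) + bb (1 / 2 + ζ / 2 - ξ) - 2 * bb ξ

/-- its derivative in `ζ` -/
noncomputable def h2 (ξ ζ : ℂ) : ℂ := (bb (1 / 2 - ζ / 2 - ξ) - bb (1 / 2 + ζ / 2 - ξ)) / 2

/-- `π cot π x` -/
noncomputable def ct (x : ℂ) : ℂ :=
  Real.pi * (Complex.cos (Real.pi * x) / Complex.sin (Real.pi * x))

/-- second derivatives of the potential -/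
noncomputable def h11 (ξ ζ : ℂ) : ℂ := -(2 * ct ξ + ct (1 / 2 - ζ / 2 - ξ) + ct (1 / 2 + ζ / 2 - ξ))
noncomputable def h12 (ξ ζ : ℂ) : ℂ := (ct (1 / 2 + ζ / 2 - ξ) - ct (1 / 2 - ζ / 2 - ξ)) / 2
noncomputable def h22 (ξ ζ : ℂ) : ℂ := -(ct (1 / 2 - ζ / 2 - ξ) + ct (1 / 2 + ζ / 2 - ξ)) / 4

/-- the maximum of the potential, `= 4 Catalan / (2 π) = 0.5831…` -/
noncomputable def H0 : ℝ := -4 * LL (1 / 4)

/-! ### functions -/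

/-- `LC`.

Proof.  `bb` is analytic on the convex set `St` (`Re (2 sin π x) > 0`); its primitive is the integral
along segments (differentiate under the integral, or use that analytic functions on convex sets have
primitives and the fundamental theorem of calculus).  `bb (1 - x) = bb x`.  `LL (1/2) = 0`
(`LL` in `W719/BS`; `∫_0^{1/2} log (2 sin π t) dt = 0`, probably in the library). -/
def S_LC : Prop := (∀ x ∈ St, HasDerivAt LC (bb x) x) ∧ (∀ x ∈ St, LC (1 - x) = -LC x) ∧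
  (∀ x : ℝ, 0 < x → x < 1 → LC x = (LL x : ℝ)) ∧ (∀ x ∈ St, HasDerivAt bb (ct x) x) ∧
  (∀ x ∈ St, bb (1 - x) = bb x)

/-- **the quantum dilogarithm** (numerically verified).

Proof.  Write `R x = I ∫_0^∞ (bb (x + it/N) - bb (x - it/N)) / (e^{2πt} + 1) dt`;
`|bb (x + is) - bb (x - is)| ≤ 2 s sup |ct|` on the segment, and `ct` is bounded on
`{δ ≤ Re x ≤ 1 - δ}` (all imaginary parts); so the integral converges, is analytic in `x`, and is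
`O(1/N)` there, which is (3).  (4): `LC (1-x) = - LC x` and `bb (1-x) = bb x` (so `R (1-x) = - R x`).
(2): it is to show `bb c = N (LC (x + 1/N) - LC x) + R (x + 1/N) - R x`, `c = x + 1/(2N)`.  Let
`f s = bb s · π N cot (π N (s - c))` on the rectangle with the vertical sides `Re s = Re x`,
`Re s = Re x + 1/N` and horizontal sides `Im s = Im x ± T`: the only pole is `s = c`, with residue
`bb c`.  On the vertical sides `s = x + it`, `s = x + 1/N + it`: `π N cot = - i π N tanh (π N t)`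
`= - i π N sgn t + i π N sgn t (1 - tanh (π N |t|))`, `1 - tanh (π N t) = 2 / (e^{2πNt} + 1)`; on the
horizontal sides `π N cot = ∓ i π N + O(e^{-2πNT})`, and `bb` grows linearly.  By Cauchy's theorem
for `bb` on the upper and on the lower half of the rectangle the parts `∓ i π N` of the whole contour
give `(1/2πi) (2 π i N) ∫_x^{x+1/N} bb`, and `T → ∞`. -/
def S_GAM : Prop := S_LC → (∀ N : ℕ, 1 ≤ N → DifferentiableOn ℂ (Gm N) St) ∧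
  (∀ N : ℕ, 1 ≤ N → ∀ x : ℂ, 0 < x.re → x.re + 1 / N < 1 →
    Gm N (x + 1 / N) = 2 * Complex.sin (Real.pi * (x + 1 / (2 * N))) * Gm N x) ∧
  (∀ δ : ℝ, 0 < δ → ∃ C : ℝ, ∀ N : ℕ, 1 ≤ N → ∀ x : ℂ, δ ≤ x.re → x.re ≤ 1 - δ →
    ‖Gm N x * Complex.exp (-(N * LC x)) - 1‖ ≤ C / N) ∧
  (∀ N : ℕ, ∀ x ∈ St, Gm N x * Gm N (1 - x) = 1)

/-- **the weights are values of an analytic function** (numerically verified).

Proof.  By iteration of (2) of `S_GAM`, `∏_{i<m} 2 sin π (x + (i + 1/2)/N) = Gm (x + m/N) / Gm x` if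
`0 < Re x`, `Re x + m/N < 1`.  `s(n1 - j) = 2 sin π (1/2 + ζ/2 - (j + 1/2)/N)`, so
`∏_{j<y} s(n1 - j) = Gm (1/2 + ζ/2) / Gm (1/2 + ζ/2 - y/N)`, the same for `n2` with `-ζ`, and
`Gm (1/2 + ζ/2) Gm (1/2 - ζ/2) = 1`.  `D y D (N-1-y) = N` (`D_refl`) and
`D (N-1-y) / D y = ∏_{j=y+1}^{N-1-y} 2 sin (π j / N) = Gm (1 - ξ - 1/(2N)) / Gm (ξ + 1/(2N))
= Gm (ξ + 1/(2N))^{-2}`, `ξ = y/N`, so `D y ^ 2 = N Gm (ξ + 1/(2N)) ^ 2`. -/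
def S_WG : Prop := S_LC → S_GAM → ∀ N y : ℕ, 1 ≤ N → ∀ ζ : ℂ, |ζ.re| / 2 + y / N < 1 / 2 →
  |ζ.re| < 1 → Wy N y (N * ζ) = WW N (y / N) ζ

/-- the derivatives of the potential, evenness, and the asymptotics of `WW`.

Proof.  `S_LC`, chain rule.  `h1 (1/4) 0 = 2 bb (1/4) - 2 bb (1/4) = 0`.  For the last part:
`N (LC (ξ + 1/(2N)) - LC ξ) = bb ξ / 2 + O(1/N)` and `S_GAM` (3) (all arguments are in
`{1/16 ≤ Re x ≤ 15/16}`, `N = 1`: `ξ + 1/2` has real part `≤ 13/16`). -/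
def S_HH : Prop := S_LC → S_GAM → (∀ N ξ ζ, WW N ξ (-ζ) = WW N ξ ζ) ∧
  (∀ ξ ζ, HH ξ (-ζ) = HH ξ ζ) ∧ HH (1 / 4) 0 = H0 ∧ h1 (1 / 4) 0 = 0 ∧ (∀ ξ, h2 ξ 0 = 0) ∧
  (∀ ξ ζ : ℂ, ‖ξ - 1 / 4‖ < 1 / 16 → ‖ζ‖ < 1 / 16 → ∀ a b : ℂ,
    HasDerivAt (fun t : ℂ => HH (ξ + t * a) (ζ + t * b)) (a * h1 ξ ζ + b * h2 ξ ζ) 0 ∧
    HasDerivAt (fun t : ℂ => h1 (ξ + t * a) (ζ + t * b)) (a * h11 ξ ζ + b * h12 ξ ζ) 0 ∧
    HasDerivAt (fun t : ℂ => h2 (ξ + t * a) (ζ + t * b)) (a * h12 ξ ζ + b * h22 ξ ζ) 0) ∧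
  (∀ N : ℕ, 1 ≤ N → DifferentiableOn ℂ (fun p : ℂ × ℂ => WW N p.1 p.2)
    (Metric.ball (1 / 4) (1 / 16) ×ˢ Metric.ball 0 (1 / 16))) ∧
  ∃ C : ℝ, ∀ N : ℕ, 1 ≤ N → ∀ ξ ζ : ℂ, ‖ξ - 1 / 4‖ < 1 / 16 → ‖ζ‖ < 1 / 16 →
    ‖WW N ξ ζ * (2 * N * Complex.sin (Real.pi * ξ)) * Complex.exp (-(N * HH ξ ζ)) - 1‖ ≤ C / N

/-- **the potential near its maximum.**

Proof.  `h11 = -4 π`, `h12 = 0`, `h22 = -π/2` at `(1/4, 0)`, and they are continuous; so for small `ρ`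
the form `a² h11 + 2ab h12 + b² h22` is close to `-4π a² - (π/2) b²` on the polydisc, which gives
the last statement (e.g. `κ = 1/2`).  For the first one use Taylor's formula with integral remainder
along the segment from `(1/4, 0)` (first derivatives vanish there; `HH = H0`): with
`a = x + iη`, `b = x' + iη'`, `Re (a² h11 + 2ab h12 + b² h22) ≤ - 2κ (x² + x'²) + 2K (η² + η'²)` if
`ρ` is small, because the real parts of `a²` and `b²` are `x² - η²`, `x'² - η'²`, and the mixed terms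
have coefficients close to `0` (`Im h11`, `h12`, `Im h22`). -/
def S_HM : Prop := S_LC → S_GAM → S_HH → ∃ ρ κ K : ℝ, 0 < ρ ∧ ρ ≤ 1 / 16 ∧ 0 < κ ∧ κ ≤ K ∧
  (∀ ξ ζ : ℂ, ‖ξ - 1 / 4‖ < ρ → ‖ζ‖ < ρ → (HH ξ ζ).re ≤
    H0 - κ * ((ξ.re - 1 / 4) ^ 2 + ζ.re ^ 2) + K * (ξ.im ^ 2 + ζ.im ^ 2)) ∧
  ∀ ξ ζ : ℂ, ‖ξ - 1 / 4‖ < ρ → ‖ζ‖ < ρ → ∀ a b : ℝ,
    ((a : ℂ) ^ 2 * h11 ξ ζ + 2 * a * b * h12 ξ ζ + (b : ℂ) ^ 2 * h22 ξ ζ).re ≤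
      -(2 * κ) * (a ^ 2 + b ^ 2)

/-- **bounds at the lattice points.**

Proof.  Let `z = 2k + 1 - N`, `n1 = k`, `n2 = N - 1 - k` (natural numbers); by symmetry `n2 ≤ n1`.
If `y ≤ n2`: `Wy = bq n1 y · bq n2 y`; `S_T1` with `α = 1/4` (`log tan (π/4) = 0`,
`log cos (π/4) (n1 + n2 - N)` is a constant, `hh (1/4) = H0 / 2`,
`(n1 - N/2)² + (n2 - N/2)² ≥ z² / 2`).  The derivative is `Wy` times
`(π/2N) ∑_{j<y} (cot (π (n1-j)/N) - cot (π (n2-j)/N))`, and `|cot (π m / N)| ≤ N` for `0 < m < N`.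
If `y > n1`: both factors vanish, so value and derivative are `0`.  If `n2 < y ≤ n1`: the value is `0`
and the derivative has the modulus `(π/N) D (y-1-n2) D (y+n2) / D y ^ 2` (a product with one factor
removed: `∏_{j<y, j≠n2} s(n2-j) = ± D n2 · D (y-1-n2)`, `[n1, y] = D n1 / (D y D (n1 - y))`,
`D n1 D n2 = N`, `N / D (n1 - y) = D (n2 + y)`).  By the known bounds
`D n ≤ C N e^{N LL(n/N)}`, `D n ≥ c e^{N LL(n/N)}` (`Q151`, `TriA.lean`: `pp_bound`; or `S_STIR` in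
`W719/BS`), `|LL| ≤ -LL(1/6)`, and `LL ((y-1-n2)/N) ≤ 0` if `y ≤ N/2`, `-2 LL (y/N) ≤ 0` if
`y ≥ N/2`, this is `≤ C N^2 e^{3 |LL(1/6)| N}`, and `3 |LL (1/6)| < 4 |LL (1/4)| = H0`:
`|LL(1/6)| - |LL(1/4)| = ∫_{1/6}^{1/4} log (2 sin π t) dt ≤ (1/12) log √2 = 0.0289`, while
`|LL (1/4)| = 0.1457…`  (`≥ 0.12` suffices).  Since `(y/N - 1/4)² + (z/N)² ≤ 2`, a small `κ` works. -/
def S_WB : Prop := S_T1 → ∃ C κ : ℝ, 0 < κ ∧ ∀ N y k : ℕ, y < N → k < N →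
  ‖Wy N y (zl N k)‖ + ‖deriv (Wy N y) (zl N k)‖ ≤ C * (N : ℝ) ^ 3 * Real.exp (N * (H0 -
    κ * (((y : ℝ) / N - 1 / 4) ^ 2 + ((2 * (k : ℝ) + 1 - N) / N) ^ 2)))

/-- all the properties used below -/
structure Cst (ρ κ K C0 : ℝ) : Prop where
  ρ0 : 0 < ρ
  ρ1 : ρ ≤ 1 / 16
  κ0 : 0 < κ
  κK : κ ≤ K
  C1 : 1 ≤ C0
  diff : ∀ N : ℕ, 1 ≤ N → DifferentiableOn ℂ (fun p : ℂ × ℂ => WW N p.1 p.2)
    (Metric.ball (1 / 4) ρ ×ˢ Metric.ball 0 ρ)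
  even : ∀ N ξ ζ, WW N ξ (-ζ) = WW N ξ ζ
  int : ∀ N y : ℕ, 1 ≤ N → ∀ ζ : ℂ, |(y : ℝ) / N - 1 / 4| < ρ → ‖ζ‖ < ρ →
    Wy N y (N * ζ) = WW N (y / N) ζ
  maj : ∀ N : ℕ, 1 ≤ N → ∀ ξ ζ : ℂ, ‖ξ - 1 / 4‖ < ρ → ‖ζ‖ < ρ → ‖WW N ξ ζ‖ ≤
    C0 * Real.exp (N * (H0 - κ * ((ξ.re - 1 / 4) ^ 2 + ζ.re ^ 2) + K * (ξ.im ^ 2 + ζ.im ^ 2)))
  asy : ∀ N : ℕ, 1 ≤ N → ∀ ξ ζ : ℂ, ‖ξ - 1 / 4‖ < ρ → ‖ζ‖ < ρ →
    ‖WW N ξ ζ * (2 * N * Complex.sin (Real.pi * ξ)) * Complex.exp (-(N * HH ξ ζ)) - 1‖ ≤ C0 / N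
  lat : ∀ N y k : ℕ, y < N → k < N → ‖Wy N y (zl N k)‖ + ‖deriv (Wy N y) (zl N k)‖ ≤
    C0 * (N : ℝ) ^ 3 * Real.exp (N * (H0 -
      κ * (((y : ℝ) / N - 1 / 4) ^ 2 + ((2 * (k : ℝ) + 1 - N) / N) ^ 2)))
  hes : ∀ ξ ζ : ℂ, ‖ξ - 1 / 4‖ < ρ → ‖ζ‖ < ρ → ∀ a b : ℝ,
    ((a : ℂ) ^ 2 * h11 ξ ζ + 2 * a * b * h12 ξ ζ + (b : ℂ) ^ 2 * h22 ξ ζ).re ≤
      -(2 * κ) * (a ^ 2 + b ^ 2)

/-- the constants exist.

Proof.  Take the smaller `κ` of `S_HM` and `S_WB`.  `maj` follows from `asy` and `S_HM`. -/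
def S_CST : Prop := S_LC → S_GAM → S_WG → S_HH → S_HM → S_T1 → S_WB → ∃ ρ κ K C0 : ℝ, Cst ρ κ K C0

/-! ### sums and integrals -/

/-- the first and the last integer of the core interval, its ends -/
noncomputable def aN (ρ : ℝ) (N : ℕ) : ℕ := ⌈(N : ℝ) * (1 / 4 - ρ / 4)⌉₊
noncomputable def bN (ρ : ℝ) (N : ℕ) : ℕ := ⌊(N : ℝ) * (1 / 4 + ρ / 4)⌋₊
noncomputable def al (ρ : ℝ) (N : ℕ) : ℝ := ((aN ρ N : ℝ) - 1 / 2) / N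
noncomputable def be (ρ : ℝ) (N : ℕ) : ℝ := ((bN ρ N : ℝ) + 1 / 2) / N

/-- the core lattice points are `zl N k` for `jN ≤ k < N - jN`; they are between `± N th` -/
noncomputable def jN (ρ : ℝ) (N : ℕ) : ℕ := ⌈(1 - ρ / 4) * N / 2⌉₊
noncomputable def th (ρ : ℝ) (N : ℕ) : ℝ := 1 - 2 * jN ρ N / N

/-- the kernel which gives the derivatives at the lattice points as residues -/
noncomputable def kz (N : ℕ) (z : ℂ) : ℂ :=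
  (Real.pi / 2) ^ 2 / Complex.sin (Real.pi * (z - N + 1) / 2) ^ 2

/-- the integral over the horizontal line `Im = η` -/
noncomputable def QX (ρ : ℝ) (N : ℕ) (η : ℝ) (f : ℂ → ℂ) : ℂ :=
  N * ∫ x in (al ρ N)..(be ρ N), f (x + η * Complex.I)

/-- the integral over the horizontal line `Im = y` with the kernel -/
noncomputable def QZ (ρ : ℝ) (N : ℕ) (y : ℝ) (f : ℂ → ℂ) : ℂ :=
  -(N / (Real.pi * Complex.I)) *
    ∫ x in (-th ρ N)..(th ρ N), f (x + y * Complex.I) * kz N (N * (x + y * Complex.I))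

/-- **a sum as an integral.**

Proof.  By Cauchy's formula on the rectangle `[al, be] × [-τ, τ]` (contained in the disc),
`∑_y f (y/N) = (1/2πi) ∮ f(ξ) π N cot (π N ξ) dξ` (split it into unit rectangles around the
integers; on the vertical sides, which are at half-integers, `|cot (π N ξ)| = |tanh| ≤ 1`).  On the
lower side `π cot (π N ξ) = i π + O(e^{-2πNτ})`, on the upper side `- i π + O(e^{-2πNτ})`
(`N τ ≥ 1`), so the sum is `N/2` times the sum of the integrals of `f` over the lines `Im = ± τ`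
(from left to right), which are moved to `Im = η` with errors at the vertical sides. -/
def S_PX : Prop := ∀ ρ : ℝ, 0 < ρ → ρ ≤ 1 / 16 → ∃ C : ℝ, ∀ N : ℕ, 16 / ρ ≤ N → ∀ f : ℂ → ℂ,
  DifferentiableOn ℂ f (Metric.ball (1 / 4) ρ) → ∀ τ η A B : ℝ, 1 ≤ τ * N → τ ≤ ρ / 2 → |η| ≤ τ →
  (∀ x ∈ Set.Icc (al ρ N) (be ρ N), ‖f (x + τ * Complex.I)‖ ≤ A ∧ ‖f (x - τ * Complex.I)‖ ≤ A) →
  (∀ t ∈ Set.Icc (-τ) τ, ‖f (al ρ N + t * Complex.I)‖ ≤ B ∧ ‖f (be ρ N + t * Complex.I)‖ ≤ B) →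
  ‖∑ y ∈ Icc (aN ρ N) (bN ρ N), f (y / N) - QX ρ N η f‖ ≤
    C * N * (Real.exp (-(2 * Real.pi * τ * N)) * A + B)

/-- **a sum of derivatives as an integral.**

Proof.  `kz N z = (z - z_0)^{-2} + O(1)` at each lattice point `z_0` (`sin²` is even around it, so
there is no residue of `kz`), so `∑ deriv (f (z/N)) (z_0) = (1/2πi) ∮ f(z/N) kz N z dz` over the
rectangle with the vertical sides `Re z = ± N th` and the horizontal sides `Im z = ± N y`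
(`N th = N - 2 jN` is `≡ N` modulo `2`, in the middle between lattice points: there
`|kz| = (π/2)² / cosh² ≤ (π/2)²`).  `kz` is even in `z` and `f` is odd, so the lower side gives the
same as the upper side, and the left and right sides are bounded by `B` in both halves
(`|f (th - i t)| = |f (-th + i t)|`). -/
def S_PZ : Prop := ∀ ρ : ℝ, 0 < ρ → ρ ≤ 1 / 16 → ∃ C : ℝ, ∀ N : ℕ, 16 / ρ ≤ N → ∀ f : ℂ → ℂ,
  DifferentiableOn ℂ f (Metric.ball 0 ρ) → (∀ ζ ∈ Metric.ball 0 ρ, f (-ζ) = -f ζ) →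
  ∀ y B : ℝ, 0 < y → y ≤ ρ / 2 →
  (∀ t ∈ Set.Icc 0 y, ‖f (th ρ N + t * Complex.I)‖ ≤ B ∧ ‖f (-th ρ N + t * Complex.I)‖ ≤ B) →
  ‖∑ k ∈ Ico (jN ρ N) (N - jN ρ N), deriv (fun z : ℂ => f (z / N)) (zl N k) - QZ ρ N y f‖ ≤
    C * N * B

/-- **one step in `ξ`.**

Proof.  Let `V = V(ζ)` be the integral.  (1): bound the integrand by `maj` and the bound of `q`
(`be - al ≤ 1`); analyticity by differentiation under the integral.  (2): `lat`.  (3): the difference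
is the sum of three parts.  `y ∉ [aN, bN]`: there `|y/N - 1/4| ≥ ρ/4`, so `lat` and the bound of `c`
give `e^{-2κ(ρ/4)²N}`.  `∑ Wy N y z (c y - q (y/N))`: `lat` and `δ`.  The third part is
`D(ζ) = ∑_{y∈[aN,bN]} WW N (y/N) ζ q (y/N) - V ζ` (`int`); it is bounded by `S_PX` with a fixed small
`τ` (`2Kτ² ≤ π τ`, `8Kτ² ≤ κ(ρ/4)²`, `τ ≤ ρ/2`) for all `ζ` with `|ζ - zl/N| ≤ 1/N`; its derivative in
`z` by Cauchy's estimate on the disc of radius `1` in `z`.  `τ0 = τ`. -/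
def S_A : Prop := S_PX → ∀ ρ κ K C0 : ℝ, Cst ρ κ K C0 → ∃ τ0 c1 : ℝ, 0 < τ0 ∧ 0 < c1 ∧
  ∀ η : ℝ, |η| ≤ τ0 → ∃ C : ℝ, ∃ N0 : ℕ, ∀ N : ℕ, N0 ≤ N → ∀ (c : ℕ → ℂ) (q : ℂ → ℂ) (M δ : ℝ),
  0 ≤ M → 0 ≤ δ →
  (∀ y < N, ‖c y‖ ≤ M * Real.exp (-(κ * N * ((y : ℝ) / N - 1 / 4) ^ 2))) →
  DifferentiableOn ℂ q (Metric.ball (1 / 4) ρ) →
  (∀ ξ ∈ Metric.ball (1 / 4 : ℂ) ρ, ‖q ξ‖ ≤
    M * Real.exp (N * (-κ * (ξ.re - 1 / 4) ^ 2 + K * ξ.im ^ 2))) →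
  (∀ y ∈ Icc (aN ρ N) (bN ρ N), ‖c y - q (y / N)‖ ≤ M * δ) →
  DifferentiableOn ℂ (fun ζ => QX ρ N η fun ξ => WW N ξ ζ * q ξ) (Metric.ball 0 ρ) ∧
  (∀ ζ ∈ Metric.ball (0 : ℂ) ρ, ‖QX ρ N η fun ξ => WW N ξ ζ * q ξ‖ ≤
    C * N * M * Real.exp (N * (H0 + 2 * K * η ^ 2)) *
      Real.exp (N * (-κ * ζ.re ^ 2 + K * ζ.im ^ 2))) ∧
  (∀ k < N, ∀ S ⊆ range N, ‖∑ y ∈ S, Wy N y (zl N k) * c y‖ +
    ‖deriv (fun z => ∑ y ∈ S, Wy N y z * c y) (zl N k)‖ ≤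
      C * N ^ 4 * M * Real.exp (N * H0) *
        Real.exp (-(κ * N * ((2 * (k : ℝ) + 1 - N) / N) ^ 2))) ∧
  (∀ k ∈ Ico (jN ρ N) (N - jN ρ N), ∀ S ⊆ range N, Icc (aN ρ N) (bN ρ N) ⊆ S →
    ‖∑ y ∈ S, Wy N y (zl N k) * c y - QX ρ N η fun ξ => WW N ξ (zl N k / N) * q ξ‖ +
    ‖deriv (fun z => ∑ y ∈ S, Wy N y z * c y) (zl N k) -
      deriv (fun z : ℂ => QX ρ N η fun ξ => WW N ξ (z / N) * q ξ) (zl N k)‖ ≤
      C * N ^ 5 * M * Real.exp (N * H0) * (δ + Real.exp (-(c1 * N))))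

/-- the discrete sum of a step in `ζ`.

Proof.  `e z = ez N w z · sin (π z / N)`; at lattice points `|ez| = 1` (`z` is real),
`|e| ≤ 1`, `|e'| ≤ π|w|/2 + π/N`; product rule. -/
def S_B0 : Prop := ∀ w : ℤ, ∃ C : ℝ, ∀ N : ℕ, 1 ≤ N → ∀ (u v : ℂ → ℂ) (M Mu : ℝ), 0 ≤ M → 0 ≤ Mu →
  Differentiable ℂ u → Differentiable ℂ v →
  (∀ k < N, ‖v (zl N k)‖ + ‖deriv v (zl N k)‖ ≤ M) →
  (∀ k < N, ‖u (zl N k)‖ + ‖deriv u (zl N k)‖ ≤ Mu) →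
  ‖∑ k ∈ range N, deriv (fun z : ℂ => ez N w z * Complex.sin (Real.pi * z / N) * (u z * v z))
    (zl N k)‖ ≤ C * N * M * Mu

/-- the integral of a step in `ζ`.

Proof.  On the line `Im ζ = y`: `|ez N w (N ζ)| = exp (-π w N x y / 2)`, `|sin π ζ| ≤ 2`,
`|kz| ≤ (π/2)² / sinh² (π N y / 2) ≤ C` (`|sin (a + ib)| ≥ |sinh b|`), and
`- π w x y / 2 - κ x² ≤ (π w y)² / (16 κ)`; `0 < th ≤ ρ/4` for large `N`.  Second part: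
differentiation under the integral. -/
def S_BQ : Prop := ∀ ρ κ K C0 : ℝ, Cst ρ κ K C0 → ∀ (w : ℤ) (y : ℝ), 0 < y → y ≤ ρ / 4 →
  ∃ C : ℝ, ∃ N0 : ℕ, ∀ N : ℕ, N0 ≤ N →
  (∀ (U V : ℂ → ℂ) (M Mu : ℝ), 0 ≤ M → 0 ≤ Mu →
    (∀ ζ ∈ Metric.ball (0 : ℂ) ρ, ‖V ζ‖ ≤ M * Real.exp (N * (-κ * ζ.re ^ 2 + K * ζ.im ^ 2))) →
    (∀ ζ ∈ Metric.ball (0 : ℂ) ρ, ‖U ζ‖ ≤ Mu * Real.exp (N * (K * ζ.im ^ 2))) →
    ‖QZ ρ N y fun ζ => ez N w (N * ζ) * Complex.sin (Real.pi * ζ) * (U ζ * V ζ)‖ ≤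
      C * N * M * Mu * Real.exp (N * ((Real.pi * w * y) ^ 2 / (16 * κ) + 2 * K * y ^ 2))) ∧
  ∀ V : ℂ → ℂ, DifferentiableOn ℂ V (Metric.ball 0 ρ) → DifferentiableOn ℂ (fun ξ =>
    QZ ρ N y fun ζ => ez N w (N * ζ) * Complex.sin (Real.pi * ζ) * (WW N ξ ζ * V ζ))
      (Metric.ball (1 / 4) ρ)

/-- **one step in `ζ`.**

Proof.  Bounds as in `S_B0`.  The lattice points outside the core (`|z| > N th`, `th ≥ ρ/4 - 2/N`)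
contribute at most `C N M Mu e^{-κ th² N}`.  For the core points replace `u`, `v` by `U (z/N)`,
`V (z/N)` (product rule, `δ ≤ 1`), then `S_PZ` for
`f ζ = ez N w (N ζ) sin (π ζ) U ζ V ζ` (odd); on the vertical sides
`|f| ≤ C M Mu exp (N (π |w| th y / 2 + 2 K y² - κ th²)) ≤ C M Mu e^{-κ (ρ/4)² N / 2}` if `|w| y` and
`y` are small. -/
def S_BD : Prop := S_PZ → ∀ ρ κ K C0 : ℝ, Cst ρ κ K C0 → ∃ τ0 c1 : ℝ, 0 < τ0 ∧ 0 < c1 ∧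
  ∀ (w : ℤ) (y : ℝ), 0 < y → y ≤ τ0 → |(w : ℝ)| * y ≤ τ0 → ∃ C : ℝ, ∃ N0 : ℕ, ∀ N : ℕ, N0 ≤ N →
  ∀ (u v U V : ℂ → ℂ) (M Mu δ : ℝ), 0 ≤ M → 0 ≤ Mu → 0 ≤ δ → δ ≤ 1 →
  Differentiable ℂ u → Differentiable ℂ v →
  DifferentiableOn ℂ U (Metric.ball 0 ρ) → DifferentiableOn ℂ V (Metric.ball 0 ρ) →
  (∀ ζ, U (-ζ) = U ζ) → (∀ ζ, V (-ζ) = V ζ) →
  (∀ k < N, ‖v (zl N k)‖ + ‖deriv v (zl N k)‖ ≤
    M * Real.exp (-(κ * N * ((2 * (k : ℝ) + 1 - N) / N) ^ 2))) →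
  (∀ k < N, ‖u (zl N k)‖ + ‖deriv u (zl N k)‖ ≤ Mu) →
  (∀ ζ ∈ Metric.ball (0 : ℂ) ρ, ‖V ζ‖ ≤ M * Real.exp (N * (-κ * ζ.re ^ 2 + K * ζ.im ^ 2))) →
  (∀ ζ ∈ Metric.ball (0 : ℂ) ρ, ‖U ζ‖ ≤ Mu * Real.exp (N * (K * ζ.im ^ 2))) →
  (∀ k ∈ Ico (jN ρ N) (N - jN ρ N), ‖v (zl N k) - V (zl N k / N)‖ +
    ‖deriv v (zl N k) - deriv (fun z : ℂ => V (z / N)) (zl N k)‖ ≤ M * δ) →
  (∀ k ∈ Ico (jN ρ N) (N - jN ρ N), ‖u (zl N k) - U (zl N k / N)‖ +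
    ‖deriv u (zl N k) - deriv (fun z : ℂ => U (z / N)) (zl N k)‖ ≤ Mu * δ) →
  ‖∑ k ∈ range N, deriv (fun z : ℂ => ez N w z * Complex.sin (Real.pi * z / N) * (u z * v z))
    (zl N k) - QZ ρ N y fun ζ => ez N w (N * ζ) * Complex.sin (Real.pi * ζ) * (U ζ * V ζ)‖ ≤
    C * N ^ 2 * M * Mu * (δ + Real.exp (-(c1 * N)))

end Pool.Agent.Q99.KN
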