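import Pool.Agent.Q99.KN.Stm2
import Pool.Agent.Q99.KN.Stm3

/-!
# Twist regions without circles, part D: the saddle point of a two-bridge link

The twist regions have the variables `ζ_i`, `i : Fin (k + 1)`, and between the regions `i` and
`i + 1` there is a variable `ξ_j`, `j : Fin k`.  The potential is
`Ph = ∑_i (π i w_i ζ_i² / 4 + π i ζ_i) + ∑_j (HH ξ_j ζ_j + HH ξ_j ζ_{j+1})`.
-/

set_option autoImplicit false

namespace Pool.Agent.Q99.KN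

open Finset Filter Topology MeasureTheory
open Pool.Agent.W715.VC (rt)
open Pool.Agent.W709.QAT (Piece run)
open Pool.Agent.Q191.LB (sg)
open Pool.Agent.W719.BS (D LL)
open Pool.Agent.Q99.FAL (bq S_T1)

/-- the iterated integral of a list of twist regions `(Im ξ, w, Im ζ)` -/
noncomputable def VQ (ρ : ℝ) (N : ℕ) : List (ℝ × ℤ × ℝ) → ℂ → ℂ
  | [], _ => 1
  | a :: L, ζ => QX ρ N a.1 fun ξ => WW N ξ ζ * QZ ρ N a.2.2 fun ζ' =>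
      ez N a.2.1 (N * ζ') * Complex.sin (Real.pi * ζ') * (WW N ξ ζ' * VQ ρ N L ζ')

/-- the iterated integral of a two-bridge link; the first region is `(w, y)` -/
noncomputable def IQ (ρ : ℝ) (N : ℕ) (w : ℤ) (y : ℝ) (L : List (ℝ × ℤ × ℝ)) : ℂ :=
  QZ ρ N y fun ζ => ez N w (N * ζ) * Complex.sin (Real.pi * ζ) * (1 * VQ ρ N L ζ)

/-- the loss in the exponent by absolute values -/
noncomputable def eE (κ K : ℝ) : List (ℝ × ℤ × ℝ) → ℝ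
  | [] => 0
  | a :: L => 2 * K * a.1 ^ 2 + ((Real.pi * a.2.1 * a.2.2) ^ 2 / (16 * κ) + 2 * K * a.2.2 ^ 2) +
      eE κ K L

/-- **the state sum is the iterated integral up to an exponentially small error.**

Proof.  Let `ws = L.map (·.2.1)`.  Induction on `L`: for `L = (η, w, y) :: L'` put
`c x = chs N x (w :: ws')`, `q ξ = QZ ρ N y (fun ζ' => ez sin (WW N ξ ζ' * VQ ρ N L' ζ'))`.  Claim:
there are `C`, `p`, `N0` such that for `N ≥ N0`, with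
`M = C N^p exp (N ((2 |L| - 1) H0 + E))`, `E = eE` without the term `2 K η²`, `δ = C N^p e^{-c1 N}`:
`‖c x‖ ≤ M exp (-κ N (x/N - 1/4)²)` for `x < N`, `q` is analytic on the disc,
`‖q ξ‖ ≤ M exp (N (-κ (Re ξ - 1/4)² + K (Im ξ)²))`, and `‖c x - q (x/N)‖ ≤ M δ` for `x ∈ [aN, bN]`:
the hypotheses of `S_A`.  Indeed (`Wk N z x 0 y = Wy N x z * Wy N y z`)
`c x = ∑_k deriv (fun z => ez N w z * sin (πz/N) * (Wy N x z * v z)) (zl N k)`,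
`v z = ∑_{y < N - x} Wy N y z * chs N y ws'`.
If `L' = []`: `v = Wy N 0 = 1`.  Apply `S_B0`, `S_BQ`, `S_BD` with the roles exchanged:
`u` is `1`, `U` is `1`, `v` is `Wy N x`, `V` is `WW N ξ` (`maj`, `lat`, `int`).
If `L' ≠ []`: the induction hypothesis for `L'` and `S_A` (`S = range (N - x)`, which contains
`[aN, bN]` if `x ≤ bN`, because `bN + bN < N`) give the hypotheses on `v` and
`V ζ = VQ ρ N L' ζ`, and `u = Wy N x`, `U = WW N ξ`, with `Mu = C0 N^3 exp (N (H0 - κ (x/N - 1/4)²))`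
(`C0 exp (N (H0 - κ (Re ξ - 1/4)² + K (Im ξ)²))` for complex `ξ`).
The final step is the same with `u = U = 1` (`x = 0`). -/
def S_IND : Prop := S_PX → S_PZ → S_A → S_B0 → S_BQ → S_BD → ∀ ρ κ K C0 : ℝ, Cst ρ κ K C0 →
  ∃ τ0 c1 : ℝ, 0 < τ0 ∧ 0 < c1 ∧ ∀ (w : ℤ) (y : ℝ) (L : List (ℝ × ℤ × ℝ)), L ≠ [] →
  0 < y → y ≤ τ0 → |(w : ℝ)| * y ≤ τ0 →
  (∀ a ∈ L, |a.1| ≤ τ0 ∧ 0 < a.2.2 ∧ a.2.2 ≤ τ0 ∧ |(a.2.1 : ℝ)| * a.2.2 ≤ τ0) →
  ∃ C : ℝ, ∃ p N0 : ℕ, ∀ N : ℕ, N0 ≤ N →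
  ‖chs N 0 (w :: L.map fun a => a.2.1) - IQ ρ N w y L‖ ≤
    C * (N : ℝ) ^ p * Real.exp (N * (2 * L.length * H0 + eE κ K L - c1))

/-! ### the saddle point -/

variable {k : ℕ}

/-- the potential -/
noncomputable def Ph (w : Fin (k + 1) → ℤ) (ξ : Fin k → ℂ) (ζ : Fin (k + 1) → ℂ) : ℂ :=
  ∑ i, (Complex.I * Real.pi * w i * ζ i ^ 2 / 4 + Complex.I * Real.pi * ζ i) +
    ∑ j : Fin k, (HH (ξ j) (ζ j.castSucc) + HH (ξ j) (ζ j.succ))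


/-- a critical point -/
structure Crit (w : Fin (k + 1) → ℤ) (ξ : Fin k → ℂ) (ζ : Fin (k + 1) → ℂ) : Prop where
  x : ∀ j : Fin k, h1 (ξ j) (ζ j.castSucc) + h1 (ξ j) (ζ j.succ) = 0
  z : ∀ i : Fin (k + 1), Complex.I * Real.pi * w i * ζ i / 2 + Complex.I * Real.pi +
    ∑ j : Fin k, ((if j.castSucc = i then h2 (ξ j) (ζ i) else 0) +
      (if j.succ = i then h2 (ξ j) (ζ i) else 0)) = 0

/-- **the saddle point exists if the twist regions are long.**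

Proof.  Banach's fixed point theorem on `B = {‖ξ_j - 1/4‖ ≤ r, ‖ζ_i‖ ≤ r}` (maximum norm), `r` small
(`r < ρ`, independent of `k`), for the map
`ξ_j ↦ ξ_j + (h1 ξ_j ζ_j + h1 ξ_j ζ_{j+1}) / (8π)`, `ζ_i ↦ -(2 / w_i) (1 + (∑ h2) / (π i))`:
the derivatives of `h1` are close to `-4π` (in `ξ`) and `0` (in `ζ`), so the first part is a
contraction; the second one for large `|w_i|`.  The center goes to `(1/4, -2/w_i)`.
`h2 ξ ζ = - (π/2) ζ (1 + s)` with `|s| ≤ 1/20` (`h2 ξ 0 = 0`, `h22` close to `-π/2`), so with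
`m ∈ {1, 2}` the number of neighbours, `ζ_i = -2 / (w_i + i m α)`, `|α - 1| ≤ 1/20`:
`Im ζ_i = 2 m Re α / |w_i + i m α|²`, which is `> 0` and `≤ 6 / w_i²`, and `|ζ_i| ≤ 3 / |w_i|`.
`h1 (1/4) ζ = O(ζ²)` (even in `ζ`, `h1 (1/4) 0 = 0`) gives `|ξ_j - 1/4| ≤ C / Wm²`.
`HH ξ ζ = H0 + O(|ξ - 1/4|² + |ζ|²)` and, with `ε = m α / w_i`,
`π i w_i ζ_i²/4 + π i ζ_i = -(π i / w_i) (1 + 2 i ε) / (1 + i ε)²`, whose real part is
`≥ - C / w_i²`. -/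
def S_SAD : Prop := S_LC → S_GAM → S_HH → ∀ ρ : ℝ, 0 < ρ → ∃ W0 C : ℝ, 1 ≤ W0 ∧
  ∀ (k : ℕ) (w : Fin (k + 1) → ℤ) (Wm : ℝ), 1 ≤ k → W0 ≤ Wm → (∀ i, Wm ≤ |(w i : ℝ)|) →
  ∃ (ξ : Fin k → ℂ) (ζ : Fin (k + 1) → ℂ), Crit w ξ ζ ∧
    (∀ j, ‖ξ j - 1 / 4‖ ≤ C / Wm ^ 2 ∧ ‖ξ j - 1 / 4‖ < ρ) ∧
    (∀ i, ‖ζ i‖ ≤ 3 / |(w i : ℝ)| ∧ ‖ζ i‖ < ρ ∧ 0 < (ζ i).im ∧ (ζ i).im ≤ 6 / (w i : ℝ) ^ 2) ∧
    2 * k * H0 - C * (k + 1) / Wm ^ 2 ≤ (Ph w ξ ζ).re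

/-- **it is unique in a polydisc.**

Proof.  Let `a_j`, `b_i` be the differences of two critical points.  Subtract the equations; by the
mean value theorem (`h11` close to `-4π`, `h12` close to `0`, `h22` bounded) on the segments
`8π |a_j| ≤ ε (|a_j| + |b_j| + |b_{j+1}|)` and `(π |w_i| / 2) |b_i| ≤ C (|b_i| + |a|)`; so the
maximum of all `|a_j|`, `|b_i|` is at most half of itself. -/
def S_UNI : Prop := S_LC → S_GAM → S_HH → ∃ ρ W0 : ℝ, 0 < ρ ∧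
  ∀ (k : ℕ) (w : Fin (k + 1) → ℤ), (∀ i, W0 ≤ |(w i : ℝ)|) →
  ∀ (ξ ξ' : Fin k → ℂ) (ζ ζ' : Fin (k + 1) → ℂ), Crit w ξ ζ → Crit w ξ' ζ' →
  (∀ j, ‖ξ j - 1 / 4‖ < ρ ∧ ‖ξ' j - 1 / 4‖ < ρ) → (∀ i, ‖ζ i‖ < ρ ∧ ‖ζ' i‖ < ρ) → ξ = ξ' ∧ ζ = ζ'

/-! ### Laplace's method -/

/-- Laplace's method: substitute `u = u' / √N` and dominated convergence. -/
def S_LAP : Prop := ∀ (ι : Type) [Fintype ι] (κ C : ℝ), 0 < κ →
  ∀ (F : ℕ → (ι → ℝ) → ℂ) (q : (ι → ℝ) → ℂ),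
  (∀ᶠ N in atTop, AEStronglyMeasurable (F N) volume) →
  (∀ᶠ N : ℕ in atTop, ∀ u, ‖F N u‖ ≤ C * Real.exp (-(κ * N * ∑ i, u i ^ 2))) →
  (∀ u, Tendsto (fun N : ℕ => F N fun i => u i / √N) atTop (𝓝 (q u))) →
  Tendsto (fun N : ℕ => ((√N : ℝ) : ℂ) ^ Fintype.card ι * ∫ u, F N u) atTop (𝓝 (∫ u, q u))

/-- **a complex Gaussian integral does not vanish** (compare `S_GI` in `FAL/Stm3.lean`, proved in
`Q299/FAL/GI.lean`).

Proof.  Let `A` be symmetrized, `A = -Q + i B` with real symmetric `Q ≥ κ`, `B`.  Simultaneous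
diagonalization of `Q` and `B`: the integral is a non-zero constant times
`∏ ∫ exp (-(1 - i μ_i) x²) = ∏ (π / (1 - i μ_i))^{1/2} ≠ 0`. -/
def S_GIM : Prop := ∀ (ι : Type) [Fintype ι] (A : ι → ι → ℂ) (κ : ℝ), 0 < κ →
  (∀ u : ι → ℝ, (∑ i, ∑ j, A i j * u i * u j).re ≤ -κ * ∑ i, u i ^ 2) →
  ∫ u : ι → ℝ, Complex.exp (∑ i, ∑ j, A i j * u i * u j) ≠ 0

/-- the data of the lines through a critical point -/
noncomputable def Lst (w : Fin (k + 1) → ℤ) (ξ : Fin k → ℂ) (ζ : Fin (k + 1) → ℂ) :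
    List (ℝ × ℤ × ℝ) := List.ofFn fun j : Fin k => ((ξ j).im, w j.succ, (ζ j.succ).im)

/-- the integrand of `IQ` -/
noncomputable def Pg (N : ℕ) (w : Fin (k + 1) → ℤ) (X : Fin k → ℂ) (Z : Fin (k + 1) → ℂ) : ℂ :=
  (∏ i, (-(N / (Real.pi * Complex.I)) * (ez N (w i) (N * Z i) * Complex.sin (Real.pi * Z i) *
    kz N (N * Z i)))) *
    ∏ j : Fin k, (N * (WW N (X j) (Z j.castSucc) * WW N (X j) (Z j.succ)))

/-- **the iterated integral as an integral over a box.**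

Proof.  Induction on `k` (decompose `Fin (k+2)` and `Fin (k+1)` as `Fin.cons`), linearity, Fubini
for functions which are continuous on the boxes (`N ≥ 16/ρ`, so that the boxes are contained in the
discs; `kz` is continuous on the lines because `Im > 0`). -/
def S_BOX : Prop := ∀ ρ κ K C0 : ℝ, Cst ρ κ K C0 → ∀ (k : ℕ) (w : Fin (k + 1) → ℤ)
  (ξ : Fin k → ℂ) (ζ : Fin (k + 1) → ℂ), (∀ j, |(ξ j).im| < ρ / 4) →
  (∀ i, 0 < (ζ i).im ∧ (ζ i).im < ρ / 4) → ∀ N : ℕ, 16 / ρ ≤ N →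
  IQ ρ N (w 0) (ζ 0).im (Lst w ξ ζ) =
    ∫ u : Fin k ⊕ Fin (k + 1) → ℝ in {u | (∀ j, u (.inl j) ∈ Set.Icc (al ρ N) (be ρ N)) ∧
      ∀ i, u (.inr i) ∈ Set.Icc (-th ρ N) (th ρ N)},
      Pg N w (fun j => u (.inl j) + (ξ j).im * Complex.I)
        (fun i => u (.inr i) + (ζ i).im * Complex.I)

/-- **the maximum at the saddle point.**

Proof.  The box points are in the polydisc (convex).  `t ↦ Re Ph` along the segment from the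
critical point has the first derivative `0` at `t = 0` (`Crit`) and the second derivative
`≤ - 2κ ∑ (…)`: the terms `π i w ζ²/4` contribute `Re (π i w b² / 2) = 0` for real `b`, and each
variable occurs in at least one `HH` (`k ≥ 1`). -/
def S_MX : Prop := S_LC → S_GAM → S_HH → ∀ ρ κ K C0 : ℝ, Cst ρ κ K C0 →
  ∀ (k : ℕ) (w : Fin (k + 1) → ℤ) (ξ : Fin k → ℂ) (ζ : Fin (k + 1) → ℂ), 1 ≤ k → Crit w ξ ζ →
  (∀ j, ‖ξ j - 1 / 4‖ < ρ) → (∀ i, ‖ζ i‖ < ρ) → ∀ (a : Fin k → ℝ) (b : Fin (k + 1) → ℝ),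
  (∀ j, ‖ξ j + a j - 1 / 4‖ < ρ) → (∀ i, ‖ζ i + b i‖ < ρ) →
  (Ph w (fun j => ξ j + a j) (fun i => ζ i + b i)).re ≤
    (Ph w ξ ζ).re - κ * (∑ j, a j ^ 2 + ∑ i, b i ^ 2)

/-- **asymptotics of the iterated integral.**

Proof.  `S_BOX`, substitute the translation by the real parts of the critical point (which are in the
interior of the boxes, as `‖ξ_j - 1/4‖, ‖ζ_i‖ < ρ/8` and `th ≥ ρ/4 - 2/N`), and apply `S_LAP`
(`ι = Fin k ⊕ Fin (k+1)`, `2k+1` elements) to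
`F N u = N^k / √N · (-1)^((k+1)(N-1)) e^{-N Ph} · √N^{-(2k+1)} · Pg N w (ξ + u) (ζ + u)` on the box,
`0` outside.  With `y = Im Z > 0`: `kz N (N Z) = -π² (-1)^(N-1) e^{πiNZ} / (1 - e^{πi(NZ-N+1)})²`,
and the denominator tends to `1` uniformly (`e^{-πNy}`, `y` fixed).  `ez N w (N Z) = e^{N πi w Z²/4}`.
`WW N X Z = e^{N HH X Z} / (2 N sin πX) · (1 + O(1/N))` (`asy`).  So
`Pg = (-1)^((k+1)(N-1)) (π N / i)^(k+1) N^k (2N)^(-2k) ∏ sin πZ_i ∏ (sin πX_j)^(-2) e^{N Ph(X,Z)}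
(1 + o(1))`, the powers of `N` cancel, `S_MX` gives the bound, and the limit is a non-zero constant
times `exp (Ph''(u,u)/2)` (first derivatives vanish; second order Taylor formula along the segment,
`h11`, `h12`, `h22` continuous).  The integral is non-zero by `S_GIM` (the real part of `Ph''/2` is
`≤ -κ |u|²` by `hes`). -/
def S_IQA : Prop := S_LC → S_GAM → S_HH → S_LAP → S_GIM → S_BOX → S_MX →
  ∀ ρ κ K C0 : ℝ, Cst ρ κ K C0 → ∀ (k : ℕ) (w : Fin (k + 1) → ℤ)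
  (ξ : Fin k → ℂ) (ζ : Fin (k + 1) → ℂ), 1 ≤ k → Crit w ξ ζ → (∀ j, ‖ξ j - 1 / 4‖ < ρ / 8) →
  (∀ i, ‖ζ i‖ < ρ / 8 ∧ 0 < (ζ i).im) → ∃ z : ℂ, z ≠ 0 ∧
  Tendsto (fun N : ℕ => (N : ℂ) ^ k / ((√N : ℝ) : ℂ) * (-1) ^ ((k + 1) * (N - 1)) *
    Complex.exp (-(N * Ph w ξ ζ)) * IQ ρ N (w 0) (ζ 0).im (Lst w ξ ζ)) atTop (𝓝 z)

/-- the crossings with signs -/
def sw {k : ℕ} (ws : Fin (k + 1) → Bool × ℕ) : Fin (k + 1) → ℤ := fun i => sg (ws i).1 * (ws i).2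

/-- **asymptotics of the state sum of a highly twisted two-bridge link.**

Proof.  `S_CST`; `τ0`, `c1` from `S_IND`; `S_SAD` for the minimum of `ρ/8`, `r` and the radius of
`S_UNI`; `W0` so large (depending on `k`) that `C/W0², 6/W0 ≤ τ0` and the sum of
`2 K (C/W0²)² + (6π/W0)²/(16κ) + 2K (6/W0²)²` over the regions plus `C (k+1)/W0²` is less than
`c1/2`.  Then `IQ` dominates the error of `S_IND`, and `S_IQA`. -/
def S_ASY : Prop := S_LC → S_GAM → S_HH → (∃ ρ κ K C0 : ℝ, Cst ρ κ K C0) → S_PX → S_PZ → S_A →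
  S_B0 → S_BQ → S_BD → S_IND → S_SAD → S_UNI → S_LAP → S_GIM → S_BOX → S_MX → S_IQA →
  ∀ r : ℝ, 0 < r → ∃ ρ : ℝ, 0 < ρ ∧ ρ ≤ r ∧ ∀ k : ℕ, 1 ≤ k → ∃ W0 : ℝ, 1 ≤ W0 ∧
  ∀ w : Fin (k + 1) → ℤ, (∀ i, W0 ≤ |(w i : ℝ)|) →
  ∃ (ξ : Fin k → ℂ) (ζ : Fin (k + 1) → ℂ), Crit w ξ ζ ∧ (∀ j, ‖ξ j - 1 / 4‖ < ρ) ∧
    (∀ i, ‖ζ i‖ < ρ ∧ 0 < (ζ i).im) ∧
    (∀ (ξ' : Fin k → ℂ) (ζ' : Fin (k + 1) → ℂ), Crit w ξ' ζ' → (∀ j, ‖ξ' j - 1 / 4‖ < ρ) →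
      (∀ i, ‖ζ' i‖ < ρ) → ξ' = ξ ∧ ζ' = ζ) ∧
    ∃ z : ℂ, z ≠ 0 ∧ Tendsto (fun N : ℕ => (N : ℂ) ^ k / ((√N : ℝ) : ℂ) *
      (-1) ^ ((k + 1) * (N - 1)) * Complex.exp (-(N * Ph w ξ ζ)) * chs N 0 (List.ofFn w))
        atTop (𝓝 z)

/-! ### the volume -/

/-- the Lobachevsky function -/
noncomputable def lbf (θ : ℝ) : ℝ := -∫ t in (0:ℝ)..θ, Real.log |2 * Real.sin t|

/-- the volume of the ideal tetrahedron with the shape `z` -/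
noncomputable def tet (z : ℂ) : ℝ :=
  lbf (Complex.arg z) + lbf (Complex.arg (1 / (1 - z))) + lbf (Complex.arg ((z - 1) / z))

/-- `LC` in terms of volumes.

Proof.  Both sides agree for real `x` (`Im z > 0` for `z = e^{2πix}`, `|z| = 1`: the angles are
`2πx` and twice `π/2 - πx`; `Λ(2θ) = 2Λ(θ) + 2Λ(θ + π/2)`, so `tet z = 2Λ(πx) = -2π LL x`), and have
the same derivative in `Im x`: the derivative of `2π Re LC (x + is)` in `s` is `-2π Im bb`;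
`d tet = log|z| d arg(1-z) - log|1-z| d arg z` (law of sines), `log |z| = -2π Im x`,
`arg (1 - z) = Im bb x + π Re x - π/2`. -/
def S_BW : Prop := S_LC → ∀ x : ℂ, 0 < x.re → x.re < 1 / 2 → 2 * Real.pi * (LC x).re =
  -tet (Complex.exp (2 * Real.pi * Complex.I * x)) - 2 * Real.pi * (x.im * (bb x).im)

/-- **the critical value is a sum of volumes of ideal tetrahedra.**

Proof.  `S_BW` for all `LC` in `Ph`; `∑ ± Im(ℓ) Im(bb ℓ)` over the linear forms `ℓ` is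
`∑ Im(ξ_j) Im(∂_ξ) + ∑ Im(ζ_i) Im(∂_ζ)` of the part of `Ph` without the quadratic terms; by `Crit`
this is `-∑_i Im(ζ_i) Im(π i w_i ζ_i / 2 + π i)`, and
`Re(π i w ζ²/4 + π i ζ) = - Im(ζ) Im(π i w ζ/2 + π i)`.  The shapes are `X = e^{2πiξ}`,
`e^{2πi(1/2 - ζ/2 - ξ)} = -1/(Z X)`, `e^{2πi(1/2 + ζ/2 - ξ)} = -Z/X`, `Z = e^{πiζ}`. -/
def S_VOL : Prop := S_LC → S_BW → ∀ (k : ℕ) (w : Fin (k + 1) → ℤ)
  (ξ : Fin k → ℂ) (ζ : Fin (k + 1) → ℂ), Crit w ξ ζ → (∀ j, ‖ξ j - 1 / 4‖ < 1 / 16) →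
  (∀ i, ‖ζ i‖ < 1 / 16) → 2 * Real.pi * (Ph w ξ ζ).re = ∑ j : Fin k,
    (4 * tet (Complex.exp (2 * Real.pi * Complex.I * ξ j)) +
      (tet (-Complex.exp (Real.pi * Complex.I * ζ j.castSucc) /
          Complex.exp (2 * Real.pi * Complex.I * ξ j)) +
        tet (-1 / (Complex.exp (Real.pi * Complex.I * ζ j.castSucc) *
          Complex.exp (2 * Real.pi * Complex.I * ξ j)))) +
      (tet (-Complex.exp (Real.pi * Complex.I * ζ j.succ) /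
          Complex.exp (2 * Real.pi * Complex.I * ξ j)) +
        tet (-1 / (Complex.exp (Real.pi * Complex.I * ζ j.succ) *
          Complex.exp (2 * Real.pi * Complex.I * ξ j)))))

end Pool.Agent.Q99.KN
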