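import Pool.Agent.Q99.FAL.Stm2

/-!
# Twist regions without circles, part A: crossings at the root of unity as residues

Everything at `v = rt N = exp (π i / N)`.  `s(x) = sn N x = 2 sin (π x / N)` for complex `x`
(`s(x + N) = - s(x)`, `s(N - x) = s(x)`), `[n, k] = bc N n k = ∏_{j<k} s(n - j) / D k` for complex
`n` (zero for `k ≥ N`, since `D N k = 0` then).  For complex `z` put `n1 = (N - 1 + z) / 2`,
`n2 = (N - 1 - z) / 2`, so that `n1 + n2 = N - 1`, `s(n1 - x) = s(n2 + 1 + x)`.  The *lattice points*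
are the `N` integers `z = 2 k + 1 - N`, `0 ≤ k < N` (`n1`, `n2` are then integers `≥ 0`).

`U(k, l) = Uv N k l = nu (k + l) uv k l` are the Fourier vectors; shifting `k` or `l` by `N`
multiplies `U(k, l)` by `(-1)^(N+1)` (`nu N N = (-1)^N v^{-N}`, `v^N = -1`).

`C` is the Casimir operator `Cas (rt N) (W (rt N) N) = F E + v^{H+1} + v^{-H-1}`.
-/

set_option autoImplicit false

namespace Pool.Agent.Q99.KN

open Matrix Finset
open Pool.Agent.H550R3.Jones (WM IsMod IsInt Gen br brf W irr)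
open Pool.Agent.W715.VC (rt)
open Pool.Agent.W709.QAT (Piece run)
open Pool.Agent.Q191.TW (cs)
open Pool.Agent.Q191.LB (sg cx)
open Pool.Agent.Q191.FT (Cas lam Sc)
open Pool.Agent.W719.BS (D)
open Pool.Agent.Q99.FW (Kg)
open Pool.Agent.Q99.FAL

/-- `2 sin (π x / N)` -/
noncomputable def sn (N : ℕ) (x : ℂ) : ℂ := 2 * Complex.sin (Real.pi * x / N)

/-- `[n, k]` for complex `n` -/
noncomputable def bc (N : ℕ) (n : ℂ) (k : ℕ) : ℂ := (∏ j ∈ range k, sn N (n - j)) / (D N k : ℝ)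

/-- the sum of the weights of a region with the corners `A` (below), `β` (right), `C` (above) -/
noncomputable def Wk (N : ℕ) (z : ℂ) (A β C : ℕ) : ℂ :=
  ∑ b ∈ range (β + 1), bc N ((N - 1 - z) / 2) A * bc N ((N - 1 + z) / 2) C *
    (bc N ((N - 1 + z) / 2) b * bc N ((N - 1 - z) / 2) (β - b)) *
    (bc N ((N - 1 + z) / 2) (A + b) * bc N ((N - 1 - z) / 2) (C + (β - b)))

/-- `-2 cos (π z / N)` -/
noncomputable def tz (N : ℕ) (z : ℂ) : ℂ := -2 * Complex.cos (Real.pi * z / N)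

/-- `(4 / N²) (-1)^N sin² (π (z - N + 1) / 2) = (2 / N²) ((-1)^N + cos (π z))` -/
noncomputable def cz (N : ℕ) (z : ℂ) : ℂ :=
  4 / (N : ℂ) ^ 2 * (-1) ^ N * Complex.sin (Real.pi * (z - N + 1) / 2) ^ 2

/-- the lattice points -/
noncomputable def zl (N k : ℕ) : ℂ := 2 * (k : ℂ) + 1 - N

/-- `U(k, l)` -/
noncomputable def Uv (N : ℕ) (k l : ℤ) : Fin N × Fin N → ℂ := nu N (k + l) • uv N k l

/-- the corner below -/
def aA (N : ℕ) (i j : ℤ) : ℕ := ((j - i - 1) % N).toNat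

/-- the vector `Zu(z) U(i, j)` -/
noncomputable def zu (N : ℕ) (z : ℂ) (i j : ℤ) : Fin N × Fin N → ℂ :=
  ∑ β ∈ range N, ∑ C ∈ range N, if aA N i j + β + C < N then
    Wk N z (aA N i j) β C • Uv N (i - (N - 1 - aA N i j - β - C)) (j + β) else 0

/-- `exp (π i w z² / (4 N))` -/
noncomputable def ez (N : ℕ) (w : ℤ) (z : ℂ) : ℂ :=
  Complex.exp (Complex.I * Real.pi * w * z ^ 2 / (4 * N))

/-- the weight of a twist region with `w` half twists and the corners `A`, `β`, `C` -/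
noncomputable def Fk (N : ℕ) (w : ℤ) (A β C : ℕ) : ℂ :=
  ∑ k ∈ range N, deriv (fun z : ℂ => ez N w z * Complex.sin (Real.pi * z / N) * Wk N z A β C)
    (zl N k)

/-! ### trigonometric identities -/

/-- **partial fractions.**

Proof.  Induction on `β`.  `β = 0` is trivial.  `β + 1`: multiply the formula for `β` by
`s(a + y) / s(a + x)` with `y = y β`, `x = x (β + 1)`, and use, for each `b ≤ β`,
`s(a + y) s(x - x_b) = s(y - x_b) s(a + x) + s(x - y) s(a + x_b)` (three terms), that is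
`s(a + y) / (s(a + x_b) s(a + x)) = s(y - x_b) / (s(x - x_b) s(a + x_b))
+ s(x - y) / (s(x - x_b) s(a + x))`.  The coefficient of `1 / s(a + x)` is
`s(x - y) ∑_b r_b / s(x - x_b)`, where `r_b` are the coefficients for `β`; this is
`- s(x - y)` times the formula for `β` at `a = - x`, `∑_b r_b / s(-x + x_b)
= ∏_{j<β} s(y_j - x) / ∏_{j≤β} s(x_j - x)`.  (`s` is odd.) -/
def S_PF : Prop := ∀ N : ℕ, 0 < N → ∀ (β : ℕ) (x y : ℕ → ℂ) (a : ℂ),
  (∀ j ≤ β, sn N (a + x j) ≠ 0) → (∀ i ≤ β, ∀ j ≤ β, i ≠ j → sn N (x j - x i) ≠ 0) →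
  (∏ j ∈ range β, sn N (a + y j)) / ∏ j ∈ range (β + 1), sn N (a + x j) =
    ∑ b ∈ range (β + 1), (∏ j ∈ range β, sn N (y j - x b)) /
      (∏ j ∈ (range (β + 1)).erase b, sn N (x j - x b)) / sn N (a + x b)

/-- **the recursion of the weights** (four cases; `γ = N - 1 - A - β - C` is the corner on the left).

Proof.  Rules: `[n, k + 1] = [n, k] s(n - k) / s(k + 1)` for `k + 1 < N` (RULE).

First case (`γ ≥ 1`, `β + 1` in the place of `β`): the common factors `[n2, A]`, and for each `b1`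
(first summation index) `[n1, b1] [n1, A + b1]`; it is to show for `b2 = β + 1 - b1`
`s(n1-C) s(n2-C) [n1,C] [n2,b2] [n2,C+b2] = s(C+1)² [n1,C+1] [n2,b2] [n2,C+1+b2]
+ s(C+1)² [n1,C+1] [n2,b2-1] [n2,C+b2] + s(C+1) s(C+2) [n1,C+2] [n2,b2-1] [n2,C+1+b2]`, where the last
two terms are absent if `b2 = 0`.  By (RULE) `s(C+1) [n1,C+1] = s(n1-C) [n1,C]`,
`s(C+1) s(C+2) [n1,C+2] = s(n1-C) s(n1-C-1) [n1,C]`; cancel `s(n1-C) [n1,C]`.  If `b2 = 0` the rest is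
(RULE).  If `b2 ≥ 1` write `[n2,b2] = [n2,b2-1] s(n2-b2+1) / s(b2)` and
`[n2,C+1+b2] = [n2,C+b2] s(n2-C-b2) / s(C+b2+1)` (`C + b2 + 1 < N`); the rest is
`s(n2-C) s(n2-b2+1) s(C+b2+1) = s(C+1) s(n2-C-b2) s(n2-b2+1) + s(C+1) s(b2) s(C+b2+1)
+ s(n1-C-1) s(b2) s(n2-C-b2)`, which follows from `s(x) s(y+b) - s(y) s(x-b) = s(b) s(x+y)` with
`x = n2-C`, `y = C+1`, `b = b2`, and `s(n1-C-1) = s(n2+C+2)`,
`s(n2+1) s(n2+1-b2) = s(C+1) s(C+1+b2) + s(n2+C+2) s(n2-C-b2)`.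

Second case (`β = 0`, `γ ≥ 1`): (RULE).

Third case (`γ = 0`, `A + (β + 1) + C = N - 1`): both sides are continuous in `z`, so assume
that no `s(n1 - j)`, `j` an integer, vanishes.  For `m < N`
`[n1,m] [n2,N-1-m] = (-1)^m 2 sin(π n1) / (N s(n1-m))` (PROD): `s(n2-j) = s(n1+1+j)`,
`∏_{k<N} s(n1+k) = 2 sin (π n1)`, `D m D (N-1-m) = N` (`D_refl`).  Apply this to
`[n1,A+b1] [n2,C+b2]`, and `S_PF` with `x_j = j`, `y_j = n1 + j + 1`, `a = A - n1`, where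
`∏_j s(y_j - b) / ∏_{j≠b} s(j - b) = (-1)^b [n1,b] [n2,β-b]`:
`Wk A β C = (-1)^(A+1) [n2,A] [n1,C] (2 sin π n1 / N) (D (A+β) / D A) / ∏_{j≤β} s(A+j-n1)` whenever
`A + β + C = N - 1`.  Divide this for `β + 1`, `C` by the one for `β`, `C + 1`: (RULE),
`s(A+β+1) = s(C+1)` and `s(A+β+1-n1) = s(n2-C)`.

Fourth case (`A + C = N - 1`): `Wk A 0 C = ([n1,A] [n2,C]) ([n2,A] [n1,C])`, (PROD) twice,
`s(n1-A) = -s(n2-C)`, `s(n2-A) = -s(n1-C)`, `sin π n2 = (-1)^N sin π n1`, and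
`sin² (π n1) = sin² (π (z-N+1)/2)`; by continuity for all `z`. -/
def S_WR : Prop := S_PF → ∀ N : ℕ, 0 < N → ∀ (z : ℂ) (A β C : ℕ),
  (A + β + C + 2 < N → sn N ((N - 1 + z) / 2 - C) * sn N ((N - 1 - z) / 2 - C) * Wk N z A (β + 1) C =
    sn N (C + 1) ^ 2 * (Wk N z A (β + 1) (C + 1) + Wk N z A β (C + 1)) +
      sn N (C + 1) * sn N (C + 2) * Wk N z A β (C + 2)) ∧
  (A + C + 1 < N → sn N ((N - 1 + z) / 2 - C) * sn N ((N - 1 - z) / 2 - C) * Wk N z A 0 C =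
    sn N (C + 1) ^ 2 * Wk N z A 0 (C + 1)) ∧
  (A + β + C + 2 = N → sn N ((N - 1 + z) / 2 - C) * sn N ((N - 1 - z) / 2 - C) *
    Wk N z A (β + 1) C = sn N (C + 1) ^ 2 * Wk N z A β (C + 1)) ∧
  (A + C + 1 = N → sn N ((N - 1 + z) / 2 - C) * sn N ((N - 1 - z) / 2 - C) * Wk N z A 0 C = cz N z)

/-- **symmetry**: the corners on the right and on the left can be exchanged.

Proof.  Let `γ = N - 1 - A - β - C`; claim `Wk A β C = Wk A γ C`, by induction on `β + γ`.  For all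
`z` outside a discrete set `s(n1-C) s(n2-C) ≠ 0`, and the recursion `S_WR` (with `Wk = 0` for `β < 0`
or `γ < 0`) `s(n1-C) s(n2-C) W(β,C,γ) = s(C+1)² (W(β,C+1,γ-1) + W(β-1,C+1,γ))
+ s(C+1) s(C+2) W(β-1,C+2,γ-1)` is symmetric in `β`, `γ`.  Then continuity in `z`. -/
def S_SY : Prop := S_PF → S_WR → ∀ N : ℕ, 0 < N → ∀ (z : ℂ) (A β C : ℕ), A + β + C < N →
  Wk N z A β C = Wk N z A (N - 1 - A - β - C) C

/-- the Casimir operator in the Fourier basis.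

Proof.  From `S_EU`, `v^{H} uv k l = v^{2(N-1)} uv (k+1) (l+1)` (`v^{2(N-1)} = v^{-2}`) and
`Cas = F E + v^{H+1} + v^{-H-1}`, with `ω = v²`, `d = k - l`:
`F E uv k l = v^{-1} (ω^{1+d} + ω^{-d}) uv k l - v uv (k-1) (l-1) - v^{-1} uv (k+1) (l+1)
+ v s(d)² uv (k-1) l + v^{-1} s(d)² uv k (l+1) - s(d) s(d-1) uv (k-1) (l+1)`
(`{d} = v^d - v^{-d} = i s(d)`), and the terms with `uv (k∓1) (l∓1)` cancel.  `nu (-1) = -v`. -/
def S_CU : Prop := S_EU → ∀ N : ℕ, 0 < N → ∀ k l : ℤ,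
  Cas (rt N) (W (rt N) N) *ᵥ Uv N k l =
    (2 * Complex.cos (Real.pi * (2 * ((k : ℂ) - l) + 1) / N)) • Uv N k l -
      sn N (k - l) ^ 2 • (Uv N (k - 1) l + Uv N k (l + 1)) -
      (sn N (k - l) * sn N (k - l - 1)) • Uv N (k - 1) (l + 1)

/-- **the resolvent of the Casimir operator.**

Proof.  Put `A = aA N i j`, `j - i - 1 = A + N e`.  In `zu` the vector is `U(k, l)` with
`k = i - γ`, `l = j + β`, `k - l = C - N (1 + e)`, so `s(k-l)² = s(C)²`,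
`s(k-l) s(k-l-1) = s(C) s(C-1)`, `cos (π (2(k-l)+1)/N) = cos (π (2C+1)/N)`.  By `S_CU` the
coefficient of `U(i - γ, j + β)` in `C zu - t(z) zu` is
`(2 cos(π(2C+1)/N) + 2 cos(π z/N)) W(β,C,γ) - s(C+1)² (W(β,C+1,γ-1) + W(β-1,C+1,γ))
- s(C+2) s(C+1) W(β-1,C+2,γ-1)` (terms with `C = 0` or `C = 1` produce no other vectors since
`s(0) = 0`), and `2 cos(π(2C+1)/N) + 2 cos(π z/N) = s(n1-C) s(n2-C)`.  `S_WR`. -/
def S_K1 : Prop := S_EU → S_PF → S_WR → S_CU → ∀ N : ℕ, 0 < N → ∀ (z : ℂ) (i j : ℤ),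
  Cas (rt N) (W (rt N) N) *ᵥ zu N z i j - tz N z • zu N z i j = cz N z • Uv N i j

/-- **the sum of the derivatives over the lattice points.**

Proof.  Let `q = exp (π i z / N)`.  A function is of class `T(d)` (`d : ℕ`) if it is a finite sum
`∑_{|k| ≤ d, k ≡ d (2)} a_k q^{k/2}`, `q^{1/2} = exp (π i z / (2N))`; products of `T(d)` and
`T(e)` are in `T(d+e)` and their top (bottom) coefficients are the products.  `s(n1-j)`, `s(n2-j)`
are in `T(1)`, so `Wk A β C ∈ T(2(A+β+C))`, and `h = sin(πz/N) Wk ∈ T(2(A+β+C+1))`.  For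
`f = ∑_{|k| ≤ N} a_k q^k` one has `∑_lattice f' = π i (-1)^(N-1) N (a_N - a_{-N})`
(`∑_{k<N} exp(π i n (2k+1-N)/N) = 0` for `0 < |n| < N`).  So the sum is `0` if `A + β + C < N - 1`.
Let `A + β + C = N - 1`, `γ = 0`.  If `β ≥ 1`: by `S_WR` (third case)
`s(n1-C) s(n2-C) Wk A β C = s(C+1)² Wk A (β-1) (C+1)`; compare the top and the bottom coefficients
in `T(2N)`: the right side is in `T(2(N-1))`, those of `s(n1-C) s(n2-C)` are `1`, so those of
`Wk A β C` in `T(2(N-1))` vanish, and the sum is `0`.  If `β = 0`: `s(n1-C) s(n2-C) Wk = cz`, whose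
top and bottom coefficients (of `q^N`, `q^{-N}`) are `1 / N²`; so those of `h` are
`± 1 / (2 i N²)` and the sum is `(-1)^(N-1) π / N`. -/
def S_B1 : Prop := S_PF → S_WR → ∀ N : ℕ, 0 < N → ∀ A β C : ℕ, A + β + C < N →
  ∑ k ∈ range N, deriv (fun z : ℂ => Complex.sin (Real.pi * z / N) * Wk N z A β C) (zl N k) =
    if β = 0 ∧ A + C + 1 = N then (-1) ^ (N - 1) * (Real.pi / N) else 0

/-- **functional calculus.**

Proof.  `p(C) - p(t) = (C - t) Q(t, C)` with `Q(t, C)` a polynomial in `t` and `C`; by `S_K1`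
`p(t(z)) zu = p(C) zu - Q(t(z), C) (C - t(z)) zu = p(C) zu - cz(z) Q(t(z), C) U(i,j)`.  `cz` has double
zeros at the lattice points, so the derivatives there of `sin(πz/N) cz(z) Q(t(z), C) U(i,j)` vanish,
and the sum is `p(C)` applied to `∑ deriv (sin(πz/N) zu) = (-1)^(N-1) (π / N) U(i,j)` (`S_B1`; the
only term has `β = 0`, `γ = 0`). -/
def S_K2 : Prop := S_EU → S_PF → S_WR → S_CU → S_K1 → S_B1 → ∀ N : ℕ, 0 < N →
  ∀ (p : Polynomial ℂ) (i j : ℤ) (q : Fin N × Fin N),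
  ∑ k ∈ range N, deriv (fun z : ℂ => p.eval (tz N z) * Complex.sin (Real.pi * z / N) *
    zu N z i j q) (zl N k) =
      (-1) ^ (N - 1) * (Real.pi / N) *
        ((Polynomial.aeval (Cas (rt N) (W (rt N) N)) p) *ᵥ Uv N i j) q

/-- Hermite interpolation.

Proof.  With the Lagrange polynomials `ℓ_x` of the nodes put
`p = ∑_x (a x + (b x - 2 a x ℓ_x'(x)) (X - x)) ℓ_x²`. -/
def S_HI : Prop := ∀ (s : Finset ℂ) (a b : ℂ → ℂ), ∃ p : Polynomial ℂ, ∀ x ∈ s,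
  p.eval x = a x ∧ p.derivative.eval x = b x

/-! ### crossings -/

/-- **the minimal polynomial of the Casimir operator.**

Proof.  `W` has the weights `μ_j = 2N - 2 - 2j`, `0 ≤ j ≤ 2N - 2`.  Let
`Ψ_j = ∏_{d ≤ j, d < N} (C - lam(μ_d + 1))`.  Claim: `Ψ_j` vanishes on the weight space `μ_j`; by
induction on `j`.  Let `x` have the weight `μ_j`; `E x` has the weight `μ_{j-1}` (or is `0` for
`j = 0`), so `Ψ_{j-1} E x = 0`, hence `E y = 0` for `y = Ψ_{j-1} x` (`C` commutes with `E`,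
`Cas_E`), which has the weight `μ_j`.  If `j < N`: `C y = F E y + lam(μ_j + 1) y = lam(μ_j + 1) y`.
If `j ≥ N`: `y = 0`, because the coefficients of `E y` at `e_{j-N} ⊗ e_{N-1}`,
`e_{j-N+1} ⊗ e_{N-2}`, … give successively that all coefficients of `y` vanish (`{k} ≠ 0` for
`0 < k < N`).  `μ_d + 1 = 2 (N-1-d) + 1`. -/
def S_MP : Prop := ∀ N : ℕ, 0 < N → ∀ v : ℂ, v ≠ 0 → (∀ k : ℕ, 0 < k → k < N → br v k ≠ 0) →
  Polynomial.aeval (Cas v (W v N))
    (∏ d ∈ range N, (Polynomial.X - Polynomial.C (lam v (2 * (d : ℤ) + 1)))) = 0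

/-- **spectral decomposition at a generic point.**

Proof.  The `lam (u²) (2d+1)`, `0 ≤ d < N`, are different for generic `u` (`lam_ne`).  Let `P_d` be
the value of the Lagrange polynomial `ℓ_d` at `C`; `∑ ℓ_d = 1` (`Lagrange.sum_basis`) and
`(X - lam_d) ℓ_d` is a multiple of the product in `S_MP`, so `(C - lam_d) P_d = 0`: the columns of
`P_d` are eigenvectors, and `T P_d = f(2d+1) P_d` (`2d+1 - (2(N-1)+1)` is even). -/
def S_PJ : Prop := S_MP → ∀ N : ℕ, 0 < N → ∀ u : ℂ, Gen u →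
  ∀ (T : Matrix (Fin N × Fin N) (Fin N × Fin N) ℂ) (f : ℤ → ℂ),
  Sc u (W (u ^ 2) N) T (2 * ((N : ℤ) - 1)) f →
  T = ∑ d ∈ range N, f (2 * (d : ℤ) + 1) • Polynomial.aeval (Cas (u ^ 2) (W (u ^ 2) N))
    (Lagrange.basis (range N) (fun d : ℕ => lam (u ^ 2) (2 * (d : ℤ) + 1)) d)

/-- **the crossings at the root of unity.**

Proof.  Let `w = sg σ * m`.  For generic `u`, `v = u²` near `rt N` put `λ_d(v) = lam v (2d+1)`,
`ε_d(v) = gg N (sg σ) v (2d+1) ^ m - Kg^m p(λ_d(v))`.  By `cx_sc`, `S_PJ` (for `cx^m` and for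
`p(C)`, which is `Sc` with `p(lam)`): `cx^m - Kg^m p(C) = ∑_d ε_d ℓ_d(C)`.  Let `v → rt N` through
generic points (for instance `v = r rt N`, `r → 1`, `r ≠ 1` real positive): the left side converges
to `cx(rt N)^m - Kg^m p(C)(rt N)` (`crossP_diff`, `crossN_diff`).  The right side tends to `0`:
`z = 2d+1-N` is a lattice point, `λ_d(rt N) = -2 cos(πz/N) = t(z)`, and
`gg N s (rt N) (2d+1) = Kg e^{πi s z²/(4N)}` (`gg_rt` in `FW/Kon.lean`), so `ε_d → 0` by the first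
hypothesis.  The nodes `d` and `d' = N-1-d` (`z' = -z`) coalesce at `rt N`, no others.  If `d = d'`
(`z = 0`) the term tends to `0`.  For a pair, with `g(x) = ∏_{e≠d,d'} (x - λ_e)`,
`ε_d ℓ_d(C) + ε_{d'} ℓ_{d'}(C) = ∏_{e≠d,d'} (C - λ_e) · [e_d (C - λ_{d'}) - e_{d'} (C - λ_d)] / (λ_d - λ_{d'})`,
`e_d = ε_d / g(λ_d)`, and the bracket divided by the difference is
`(C - λ_{d'}) (e_d - e_{d'}) / (λ_d - λ_{d'}) + e_{d'}`.  So it suffices that
`(ε_d - ε_{d'}) / (λ_d - λ_{d'}) → 0`.  With `v = r rt N`, derivatives in `log v`: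
`gg = ± v^{s((c²-1)/4 - (N²-1))}`, `c = 2d+1 = N + z`, `c' = N - z`: the quotient
`(gg_d^m - gg_{d'}^m) / (λ_d - λ_{d'})` tends to
`Kg^m e^{πi w z²/(4N)} m s (c²-c'²)/4 / (2i c sin(πc/N) - 2i c' sin(πc'/N))
= Kg^m e^{πi w z²/(4N)} w N z / (- 4 i N sin(πz/N))`, `= Kg^m p'(t(z))` by the second hypothesis,
and `(p(λ_d) - p(λ_{d'})) / (λ_d - λ_{d'}) → p'(t(z))`. -/
def S_K3 : Prop := S_MP → S_PJ → ∀ N : ℕ, 0 < N → ∀ (σ : Bool) (m : ℕ) (p : Polynomial ℂ),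
  (∀ k < N, p.eval (tz N (zl N k)) = ez N (sg σ * m) (zl N k)) →
  (∀ k < N, p.derivative.eval (tz N (zl N k)) * (2 * Real.pi / N *
    Complex.sin (Real.pi * zl N k / N)) =
      Complex.I * Real.pi * (sg σ * m : ℤ) * zl N k / (2 * N) * ez N (sg σ * m) (zl N k)) →
  cx σ N (rt N) ^ m = Kg N (sg σ) ^ m •
    Polynomial.aeval (Cas (rt N) (W (rt N) N)) p

/-- **crossings in the Fourier basis** (numerically verified).

Proof.  Nodes: the set of the values `t(zl k)`; `t(z) = t(z')` for lattice points iff `z' = ± z`.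
`S_HI` gives `p` as in `S_K3` (at `z = 0` take `p' = 0`; values and derivatives agree at `± z`).
Then `cx^m U(i,j) = Kg^m p(C) U(i,j)`, `S_K2`, and at a lattice point
`deriv (p(t(z)) sin(πz/N) zu) = deriv (ez sin(πz/N) zu)` because the values and the first
derivatives of `p(t(z))` and `ez` agree there. -/
def S_F2 : Prop := S_EU → S_PF → S_WR → S_CU → S_K1 → S_B1 → S_K2 → S_HI → S_MP → S_PJ → S_K3 →
  ∀ N : ℕ, 0 < N → ∀ (σ : Bool) (m : ℕ) (i j : ℤ),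
  (cx σ N (rt N) ^ m) *ᵥ Uv N i j = (Kg N (sg σ) ^ m * (-1) ^ (N - 1) * (N / Real.pi)) •
    ∑ β ∈ range N, ∑ C ∈ range N, if aA N i j + β + C < N then
      Fk N (sg σ * m) (aA N i j) β C • Uv N (i - (N - 1 - aA N i j - β - C)) (j + β) else 0

end Pool.Agent.Q99.KN
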