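import Pool.Agent.Q99.KN.Stm1
import Pool.Agent.Q191.TB.Gd

/-!
# Twist regions without circles, part B: state sums for diagrams with arbitrary regions

This part repeats part B of the project FAL (`Pool/Agent/Q99/FAL/Stm2.lean`) for regions of two
strands whose operators have arbitrary weights: `aw p σ m 1` is replaced by `R.D p`,
`Kg^m K2` by `R.K`, and `wt6 N w (zz x)` by `R.wt (zz x)`.  The proofs of `FAL` (`Q224/FAL` for `TR`,
`Q162/FAL/Z.lean`, `Q151/FAL/G.lean`, `Q162/FAL/J.lean`) carry over without changes.  The second half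
is the application to two-bridge links.
-/

set_option autoImplicit false

namespace Pool.Agent.Q99.KN

open Matrix Finset
open Pool.Agent.H550R3.Jones (WM IsMod IsInt Gen br brf W irr)
open Pool.Agent.W715.VC (rt)
open Pool.Agent.W709.QAT (Piece run)
open Pool.Agent.Q191.TW (cs)
open Pool.Agent.Q191.LB (sg cx)
open Pool.Agent.Q191.TB (Gd)
open Pool.Agent.Q99.FW (Kg)
open Pool.Agent.Q99.FAL

/-- a region of two strands: its elementary parts in the position `p`, a constant, weights -/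
structure Rgn (N : ℕ) where
  D : ℕ → List Piece
  K : ℂ
  wt : (Fin 6 → ℤ) → ℂ

/-- `R` describes the operator of its elementary parts in the Fourier basis -/
structure Rgn.Ok {N : ℕ} (R : Rgn N) : Prop where
  norm : ‖R.K‖ = 1
  gd : ∀ p n : ℕ, p + 2 ≤ n → Gd (N := N) n n (run N (rt N) (R.D p))
  op : ∀ (p : ℕ) (L M : List ℤ) (i j : ℤ), L.length = p →
    ∀ l : List (Fin N), l.length = (L ++ i :: j :: M).length →
    run N (rt N) (R.D p) (UU N (L ++ i :: j :: M)) l = R.K * N * ∑ x : Fin 6 → Fin N,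
      if ((x 0 : ℕ) : ℤ) = (j - i - 1) % N ∧ n1 (zz x) + n2 (zz x) = N - 1 then
        R.wt (zz x) * UU N (L ++ (i - cor (zz x) 3) :: (j + cor (zz x) 1) :: M) l else 0

/-- a piece: type, position, region -/
structure Gp (N : ℕ) where
  ty : Ty
  p : ℕ
  R : Rgn N

/-- the elementary parts of a piece -/
def elg {N : ℕ} : Gp N → List Piece
  | ⟨.V, p, R⟩ => R.D p
  | ⟨.H, p, R⟩ => Piece.cup (p + 2) :: (R.D (p + 1) ++ [Piece.cap p])
  | ⟨.YL, p, R⟩ => Piece.cup (p + 1) :: R.D p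
  | ⟨.YR, p, R⟩ => Piece.cup p :: R.D (p + 1)
  | ⟨.LL, p, R⟩ => R.D p ++ [Piece.cap (p + 1)]
  | ⟨.LR, p, R⟩ => R.D (p + 1) ++ [Piece.cap p]

/-- `D` is a diagram with `n` strands below and one strand above -/
def Vag {N : ℕ} : List (Gp N) → ℕ → Prop
  | [], n => n = 1
  | P :: D, n => P.p + wd P.ty ≤ n ∧ Vag D (up P.ty n)

/-- the operator of a piece of type `T` (compare `TR` in `FAL/Stm2.lean`, same proofs) -/
def TG (T : Ty) : Prop := S_PER → S_CUP → S_CAP →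
  ∀ N : ℕ, 0 < N → ∀ R : Rgn N, R.Ok → ∀ p n : ℕ, p + wd T ≤ n →
  ∃ θ : ℂ, ‖θ‖ = 1 ∧ ∀ (s : ℤ) (G : List ℤ), G.length = n + 1 → (∀ g ∈ G, 0 ≤ g) →
  ∃ ε : (Fin 6 → Fin N) → ℂ, (∀ x, (∀ c ∈ cls T p (cor (zz x)) G, c = N - 1) → ε x = 1) ∧
  ∀ l : List (Fin N), l.length = up T n →
    run N (rt N) (elg ⟨T, p, R⟩) (UU N (str s G)) l =
      θ * N ^ ex T * ∑ x : Fin 6 → Fin N, if n1 (zz x) + n2 (zz x) = N - 1 ∧
        (∀ c ∈ cls T p (cor (zz x)) G, (N : ℤ) ∣ c + 1) then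
          R.wt (zz x) * ε x * UU N (str s (stp T p (cor (zz x)) G)) l else 0

/-- `TG` for all types, without hypotheses -/
def TGall : Prop := ∀ (T : Ty) (N : ℕ), 0 < N → ∀ R : Rgn N, R.Ok → ∀ p n : ℕ, p + wd T ≤ n →
  ∃ θ : ℂ, ‖θ‖ = 1 ∧ ∀ (s : ℤ) (G : List ℤ), G.length = n + 1 → (∀ g ∈ G, 0 ≤ g) →
  ∃ ε : (Fin 6 → Fin N) → ℂ, (∀ x, (∀ c ∈ cls T p (cor (zz x)) G, c = N - 1) → ε x = 1) ∧
  ∀ l : List (Fin N), l.length = up T n →
    run N (rt N) (elg ⟨T, p, R⟩) (UU N (str s G)) l =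
      θ * N ^ ex T * ∑ x : Fin 6 → Fin N, if n1 (zz x) + n2 (zz x) = N - 1 ∧
        (∀ c ∈ cls T p (cor (zz x)) G, (N : ℤ) ∣ c + 1) then
          R.wt (zz x) * ε x * UU N (str s (stp T p (cor (zz x)) G)) l else 0

/-- the state sum, recursively -/
noncomputable def SG {N : ℕ} : List (Gp N) → List ℤ → ℂ
  | [], G => if G = [0, 0] then 1 else 0
  | P :: D, G => ∑ x : Fin 6 → Fin N, if n1 (zz x) + n2 (zz x) = N - 1 ∧
      (∀ c ∈ cls P.ty P.p (cor (zz x)) G, c = N - 1) then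
        P.R.wt (zz x) * SG D (stp P.ty P.p (cor (zz x)) G) else 0

/-- too small angle sums give zero (proof of `FAL.S_Z`) -/
def S_ZG : Prop := TGall → ∀ N : ℕ, ∀ h : 0 < N, ∀ (D : List (Gp N)), (∀ P ∈ D, P.R.Ok) →
  ∀ n : ℕ, Vag D n → ∀ (s : ℤ) (G : List ℤ), G.length = n + 1 → (∀ g ∈ G, 0 ≤ g) →
  2 * G.sum < ((n : ℤ) - 1) * (N - 1) →
  run N (rt N) (D.flatMap elg) (UU N (str s G)) [⟨0, h⟩] = 0

/-- the state sum (proof of `FAL.S_G`) -/
def S_GG : Prop := TGall → S_ZG → ∀ N : ℕ, ∀ h : 0 < N, ∀ (D : List (Gp N)), (∀ P ∈ D, P.R.Ok) →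
  ∀ n : ℕ, Vag D n →
  ∃ θ : ℂ, ‖θ‖ = 1 ∧ ∀ (s : ℤ) (G : List ℤ), G.length = n + 1 → (∀ g ∈ G, 0 ≤ g) →
  G.head? = some 0 → G.getLast? = some 0 → 2 * G.sum = ((n : ℤ) - 1) * (N - 1) →
  run N (rt N) (D.flatMap elg) (UU N (str s G)) [⟨0, h⟩] =
    θ * N ^ (D.map fun P => ex P.ty).sum * nu N s * SG D G

/-- the Kashaev invariant as a state sum (proof of `FAL.S_J`) -/
def S_JG : Prop := S_GG → TGall → S_ZG → ∀ N : ℕ, ∀ h : 0 < N, ∀ D : List (Gp N),
  (∀ P ∈ D, P.R.Ok) → Vag D 1 →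
  ∃ θ : ℂ, ‖θ‖ = 1 ∧ run N (rt N) (D.flatMap elg) (fun l => if l = [⟨0, h⟩] then 1 else 0)
    [⟨0, h⟩] = θ * N ^ D.length * SG D [0, 0]

/-! ### crossings -/

/-- a region of `m` crossings without circle -/
noncomputable def tw (N : ℕ) (σ : Bool) (m : ℕ) : Rgn N where
  D := fun p => [Piece.twist p σ m]
  K := Kg N (sg σ) ^ m * (-1) ^ (N - 1)
  wt := fun x => if x 4 = 0 ∧ x 5 = 0 then
    Fk N (sg σ * m) (x 0).toNat (x 1).toNat (x 3).toNat / Real.pi else 0

/-- the last formula of `Stm1.lean` without its hypotheses -/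
def F2 : Prop := ∀ N : ℕ, 0 < N → ∀ (σ : Bool) (m : ℕ) (i j : ℤ),
  (cx σ N (rt N) ^ m) *ᵥ Uv N i j = (Kg N (sg σ) ^ m * (-1) ^ (N - 1) * (N / Real.pi)) •
    ∑ β ∈ range N, ∑ C ∈ range N, if aA N i j + β + C < N then
      Fk N (sg σ * m) (aA N i j) β C • Uv N (i - (N - 1 - aA N i j - β - C)) (j + β) else 0

/-- **crossings as a region.**

Proof.  `act_tw` (`Q191/SH/Aug.lean`): `run` is `op (cx ^ m) p`; then `F2`.  A common shift of the
positions of both strands by `p` multiplies `ph ph` by `v^{-(N-1)p(q.1+q.2)}`, which commutes with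
`cx ^ m` (it preserves `q.1 + q.2`: `crossP`, `crossN` preserve the sum, see
`Q246/FAL/REG.lean` for the same argument for `Xm`).  The six-tuples `x` with `x 4 = x 5 = 0` are
`(A, β, γ, C, 0, 0)`, `γ = N - 1 - A - β - C`; `cor = (A, β, C, γ)`.  `Gd_twist`. -/
def S_TO : Prop := F2 → ∀ N : ℕ, 0 < N → ∀ (σ : Bool) (m : ℕ), (tw N σ m).Ok

/-! ### two-bridge links -/

/-- the crossings and the last cap; the next twist region is in the position `q` -/
def tbl : ℕ → List (Bool × ℕ) → List Piece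
  | q, [] => [Piece.cap q]
  | q, a :: r => Piece.twist q a.1 a.2 :: tbl (1 - q) r

/-- **the two-bridge link** `C(±m_1, …, ±m_n)` as the closure of a one-strand tangle -/
def tbd (ws : List (Bool × ℕ)) : List Piece := Piece.cup 0 :: tbl 1 ws

/-- the weight of a twist region of a two-bridge link -/
noncomputable def GG (N : ℕ) (w : ℤ) (x y : ℕ) : ℂ := if x + y < N then Fk N w x 0 y else 0

/-- the product of the weights -/
noncomputable def chs (N : ℕ) : ℕ → List ℤ → ℂ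
  | x, [] => if x = 0 then 1 else 0
  | x, w :: r => ∑ y ∈ range N, GG N w x y * chs N y r

/-- **the Kashaev invariant of a two-bridge link** (numerically verified).

Proof.  `tbd ws` is the diagram of the pieces `YR` (`p = 0`), then for each of the following regions
but the last one `V` with `p = 0, 1, 0, …`, then `LL` with `p = 0` if the last region is in the
position `0` and `LR` with `p = 0` if it is in the position `1` (its elementary parts are
`twist 1`, `cap 0`); all regions are `tw`.  `S_JG`.  In the state sum all entries of the gaps are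
`≥ 0` and the first and the last gap never decrease, so they vanish.  Start `G = [0, 0]`; after `YR`:
`[A, γ, C, β]` with `A = β = 0`, so `G = [0, N-1-y, y, 0]` with `y = C`, weight `Fk 0 0 y`.  `V` at
`p = 0` on `[0, N-1-x, x, 0]`: `A = x`, `γ = 0`, `C = y`, `β = N-1-x-y`, weight
`Fk x (N-1-x-y) y = Fk x 0 y` (`S_SY`), new gaps `[0, y, N-1-y, 0]`.  `V` at `p = 1` on
`[0, x, N-1-x, 0]`: `A = x`, `β = 0`, `C = y`, weight `Fk x 0 y`, new gaps `[0, N-1-y, y, 0]`.  `LL` on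
`[0, N-1-x, x, 0]`: `A = x`, `β = N-1-x`, `C = γ = 0`, weight `Fk x (N-1-x) 0 = Fk x 0 0`.  `LR` on
`[0, x, N-1-x, 0]`: `γ = N-1-x`, `A = x`, `β = C = 0`, weight `Fk x 0 0`. -/
def S_CH : Prop := (∀ N : ℕ, 0 < N → ∀ (σ : Bool) (m : ℕ), (tw N σ m).Ok) →
  S_JG → S_GG → TGall → S_ZG → S_PF → S_WR → S_SY →
  ∀ N : ℕ, ∀ h : 0 < N, ∀ ws : List (Bool × ℕ), 2 ≤ ws.length →
  ∃ θ : ℂ, ‖θ‖ = 1 ∧ run N (rt N) (tbd ws) (fun l => if l = [⟨0, h⟩] then 1 else 0) [⟨0, h⟩] =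
    θ * (N / Real.pi) ^ ws.length * chs N 0 (ws.map fun a => sg a.1 * (a.2 : ℤ))

end Pool.Agent.Q99.KN
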